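import Pool.Agent.Helper91.EF.Final

/-!
# One plurigenus and canonical foliations without tensors of bounded degree

Let `(X, Δ)` be a pair of dimension `n ≥ 1` with function field `K` and coefficients in `[0, 1]`.  For
a foliation `F ⊆ T_X` let `K_F` be its canonical divisor and `Δ_F` the part of `Δ` whose prime divisors
are not `F`-invariant.

**Theorem.**  For all `n ≥ 1` and `N₀` there is a number `M = M (n, N₀) ≥ 1` such that the following
holds for all pairs `(X, Δ)` of dimension `n` and all `κ`.  If `M (K_X + Δ)` has no nonzero section
(`κ = 0`), or if the rational map which is given by its sections has an image of dimension less than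
`κ`, then there is a foliation `F ≠ 0`, invariant under all automorphisms of the field `K` which
preserve `(X, Δ)`, such that each orbifold tensor differential on `F`, of degree `N ≤ N₀` and any
symmetry, with values in `a (K_F + Δ_F) + b (K_X + Δ)`, where `0 ≤ a ≤ N₀`, `|b| ≤ N₀`, `N + a > 0` and
`N + a rk F + b n > 0`, is zero if its Iitaka dimension is at least `κ`.  If `F ≠ T_X` then each such
tensor is zero.

So the vanishing of *one* plurigenus `P_M`, where `M` depends only on `n` and `N₀`, gives a canonical
foliation without tensors of degree at most `N₀`; equivalently, if each canonical foliation `F ≠ 0` of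
`(X, Δ)` has a nonzero tensor of degree at most `N₀` in the above sense, then `P_M (X, Δ) ≠ 0`.  This is
an effective nonvanishing theorem with a bound which depends only on the dimension, and it is not only
about counterexamples to nonvanishing: it also says that if `κ (X, Δ) ≥ 0` but the plurigenera of small
degree vanish, then there is a canonical foliation without tensors of small degree.  For `κ > 0` it
compares the image of the map of `M (K_X + Δ)` with the tensors of degree at most `N₀`: if there is no
canonical foliation `F ≠ T_X` without tensors of degree at most `N₀`, then each nonzero tensor of degree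
at most `N₀` and of Iitaka dimension `κ` forces the image of `M (K_X + Δ)` to have dimension at least
`κ`; compare the conjecture on the effective Iitaka fibration.

The proof follows `FoliationWithoutTensors`, where all plurigenera vanish and the degrees are not
bounded, with bounds at each step.  The invariants of `SL (U)` on the tensors of degree at most `N₀` on
a distribution `U` satisfy a Noetherian bound which does not depend on the field `K` (the generic
tensors have finitely many coordinates, as a linearly independent family of tensors of degree `N` has
at most `(rk U) ^ N` members).  The weights of the optimal destabilising flags (Kempf) lie in a finite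
set which depends only on `n` and `N₀`, since they minimise the norm on one of finitely many convex
polyhedra.  So the semistability of the leading parts (Ramanan and Ramanathan) is detected by an
invariant of bounded degree, which gives a section of bounded degree of a combination of the canonical
divisors of the members of the flag and of `X`, and the number of steps of the induction on the rank is
at most `n`.  In passing to brackets the degree of a tensor at most doubles.
-/

set_option autoImplicit false

open Module FF Pool.Agent.W602.GT Pool.Agent.Helper91.Fol2

namespace Pool.Agent.Results.MP_bc213e_ag.EffectiveFoliation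

/-- **One plurigenus and foliations without tensors of bounded degree.**  For all `n ≥ 1` and `N₀` there
is `M ≥ 1` such that for each pair `(X, Δ)` of dimension `n` with function field `K` and coefficients
`0 ≤ δ P ≤ 1` and each `κ` the following holds: if the image of the rational map given by
`M (K_X + Δ)` has dimension less than `κ` (if `M (K_X + Δ)` has no nonzero section, for `κ = 0`), then
there is a nonzero distribution `F`, closed under Lie brackets and invariant under all automorphisms of
the field `K` which preserve `(X, Δ)`, such that for all `0 ≤ N, a ≤ N₀`, not both zero, and all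
integers `b` with `|b| ≤ N₀` and `N + a rk F + b n > 0` each orbifold tensor differential of degree `N`
on `F` with values in `a (K_F + Δ_F) + b (K_X + Δ)` is zero, provided that `F ≠ T_X` or that the Iitaka
dimension of the tensor is at least `κ`. -/
theorem result (n N₀ : ℕ) (hn0 : 0 < n) : ∃ M : ℕ, 0 < M ∧ ∀ (K : Type) [Field K] [Algebra ℂ K]
    [Algebra.EssFiniteType ℂ K], Algebra.trdeg ℂ K = n →
    ∀ (X : Set (Place ℂ K)) (δ : Place ℂ K → ℝ), (∀ P ∈ X, 0 ≤ δ P ∧ δ P ≤ 1) →
    ∀ κ : ℕ, ¬ ImageGe n X δ M κ →
    ∃ F : Submodule K (Derivation ℂ K K), F ≠ ⊥ ∧ Involutive F ∧ AutInvariant X δ F ∧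
      ∀ (N a : ℕ) (b : ℤ), N ≤ N₀ → a ≤ N₀ → |b| ≤ N₀ → 0 < N + a →
        0 < (N : ℤ) + rk F * a + n * b →
          NoTensors n X δ F κ N a b ∧ (F ≠ ⊤ → NoTensors n X δ F 0 N a b) := by
  obtain ⟨M, hM, h⟩ := Pool.Agent.Helper91.EF.final_eff n N₀ hn0
  refine ⟨M, hM, fun K _ _ _ hn X δ hδ κ hκ => ?_⟩
  obtain ⟨U, F, h1, h2, h3, -, -, h5, h6⟩ := h K hn X δ hδ κ hκ
  refine ⟨F, fun h => h1 (le_bot_iff.1 (h ▸ h2)), h3, h5, fun N a b hN ha hb hNa hNb => ?_⟩
  have ha' : |(a : ℤ)| ≤ N₀ := by
    rw [Nat.abs_cast]
    exact_mod_cast ha
  exact ⟨(h6 κ (Or.inl rfl) N a b hN ha' hb).2 (Int.natCast_nonneg _) (by exact_mod_cast hNa) hNb,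
    fun hF => (h6 0 (Or.inr fun h => hF (top_le_iff.1 (h ▸ h2))) N a b hN ha' hb).2
      (Int.natCast_nonneg _) (by exact_mod_cast hNa) hNb⟩

end Pool.Agent.Results.MP_bc213e_ag.EffectiveFoliation
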