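import Pool.Agent.Helper91.FE.Final

/-!
# Failure of nonvanishing and a canonical foliation without tensors

Let `(X, Δ)` be a pair of dimension `n ≥ 1` with function field `K` and coefficients in `[0, 1]`.  For
a foliation `F ⊆ T_X` let `K_F` be its canonical divisor and `Δ_F` the part of `Δ` whose prime divisors
are not `F`-invariant.

**Theorem.**  If the Kodaira dimension of `(X, Δ)` is less than `κ` then there is a foliation `F ≠ 0`,
invariant under all automorphisms of the field `K` which preserve `(X, Δ)`, such that each orbifold
tensor differential on `F`, of any degree `N ≥ 0` and any symmetry, with values in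
`a (K_F + Δ_F) + b (K_X + Δ)`, of Iitaka dimension at least `κ` is zero; here `a ≥ 0`, `N + a > 0`, and
`b` is any integer, possibly negative, such that the weight `N + a rk F + b n` is positive.  If
`F ≠ T_X` then each such tensor is zero.

*The case `κ = 0`.*  If nonvanishing fails for `(X, Δ)` then there is a canonical foliation `F ≠ 0`
without tensors; in the absence of `Δ`: `H⁰(X, (Ω¹_F) ^ ⊗ N ⊗ O (a K_F + b K_X)) = 0` for all
`N, a, b ≥ 0` with `N + a > 0`.  In particular `κ (K_F + Δ_F + t (K_X + Δ)) = - ∞` for all rational
`t ≥ 0`, although `K_X + Δ` is pseudo-effective if `X` is not uniruled; and all orbifold tensor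
differentials of `(X, Δ)`, for example all holomorphic forms, vanish on `F`.  If `X` is uniruled the
tangent foliation of the rational quotient has these properties.  By the conjecture of Mumford a
projective manifold without tensors is rationally connected; the theorem says that the failure of
nonvanishing gives in any case a foliation with the vanishing which this conjecture is about.

*The case `κ > κ (X, Δ) ≥ 0`.*  Either `F = T_X`, and then no tensor on `(X, Δ)` with values in
`c (K_X + Δ)`, `c` an integer, of positive weight `N + c n` has Iitaka dimension at least `κ`, as is
expected by conjectures of Campana, or `F ≠ T_X` is a canonical foliation without any tensors.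

The proof: (1) Let `U` be a distribution without sections of `m (K_U + Δ_U) + b (K_X + Δ)` for `m > 0`
and `m rk U + b n > 0` (of Iitaka dimension at least `κ`).  All invariants of `SL (U)` vanish on the
tensors of positive weight on `U`, so that they are destabilised by an optimal flag (Hilbert, Mumford,
Kempf).  The leading parts of the tensors, twisted by a character, are semistable for the Levi subgroup
(Ramanan and Ramanathan), and its invariants give a section of a combination of the canonical divisors
of the members of the flag and of `X`.  Hence some proper member of the flag has no sections in the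
above sense, if there is a nonzero tensor of Iitaka dimension at least `κ` and positive weight on `U`.
(2) Induction on the rank gives an invariant distribution `U ≠ 0` without such tensors.  (3) If `U` has
no tensors with `a = 0` then `U + [U, U]` has none, as a tensor on it gives a tensor on `U` of higher
degree when arguments are replaced by brackets; so the foliation `F` which is generated by `U` has none.
(4) Tensors with values in `a (K_F + Δ_F) + b (K_X + Δ)`, `a ≥ 0`, give tensors with `a = 0`, as the
coefficients of `Δ` are at most one.
-/

set_option autoImplicit false

open Module FF Pool.Agent.W602.GT Pool.Agent.Helper91.HM.Tw Pool.Agent.Helper91.Fol2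

namespace Pool.Agent.Results.MP_bc213e_ag.FoliationWithoutTensors

/-- **The foliation without tensors.**  Let `(X, Δ)` be a pair of dimension `n ≥ 1` with function field
`K` and coefficients `0 ≤ δ P ≤ 1` such that `κ(X, Δ) < κ`.  Then there is a nonzero distribution `F`,
closed under Lie brackets and invariant under all automorphisms of the field `K` which preserve
`(X, Δ)`, such that for all `N, a ≥ 0`, not both zero, and all integers `b` with `N + a rk F + b n > 0`
each orbifold tensor differential of degree `N` on `F` with values in `a (K_F + Δ_F) + b (K_X + Δ)` is
zero, provided that `F ≠ T_X` or that the Iitaka dimension of the tensor is at least `κ`. -/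
theorem result {K : Type} [Field K] [Algebra ℂ K] [Algebra.EssFiniteType ℂ K] {n : ℕ}
    (hn : Algebra.trdeg ℂ K = n) (hn0 : 0 < n) (X : Set (Place ℂ K)) (δ : Place ℂ K → ℝ)
    (hδ : ∀ P ∈ X, 0 ≤ δ P ∧ δ P ≤ 1) (κ : ℕ) (hκ : ¬ KodairaGe n X δ κ) :
    ∃ F : Submodule K (Derivation ℂ K K), F ≠ ⊥ ∧ Involutive F ∧ AutInvariant X δ F ∧
      ∀ (N a : ℕ) (b : ℤ), 0 < N + a → 0 < (N : ℤ) + rk F * a + n * b →
        NoTensors n X δ F κ N a b ∧ (F ≠ ⊤ → NoTensors n X δ F 0 N a b) :=
  Pool.Agent.Helper91.FE.final_fol hn hn0 X δ hδ κ hκ

end Pool.Agent.Results.MP_bc213e_ag.FoliationWithoutTensors
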