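import Pool.Agent.Helper12.BL.Web2

/-!
# Nonvanishing for pairs with a semistable multivalued decomposable form

Let `(X, Δ)` be a pair of dimension `n ≥ 1` with function field `K`, for instance a log canonical
pair, and `θ = θ_1 ∧ ... ∧ θ_d` a multivalued decomposable rational `d`-form on `X`, `d ≥ 1`: the
`θ_r` are 1-forms on `X` with coefficients in a finite Galois extension `L` of `K`.  The kernels of
the conjugates of `θ` are a web of codimension `d` on `X` (no integrability is assumed).  The single
branches of `θ` may have any poles; suppose only that the product of all conjugates of `θ`, a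
section of a symmetric power of `Ω^d`, is regular in the sense of orbifold differentials of
`(X, Δ)`: with at most logarithmic poles along the components of `Δ` with coefficient `1`, and with
pole order at most `q δ_P` along `P` for the terms with `q` factors which are not logarithmic.

If no rational distribution `V ⊆ T_X` (defined over `K`, that is, on `X` itself) has
`rank (θ | V) < (d / n) dim V`, then `κ(X, Δ) ≥ 0`.

For `d = 1` the condition says that the conjugates of the 1-form `θ` generate the cotangent space of
`X` at the generic point: the product is a symmetric differential which is a product of linear forms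
without common zero, and nonvanishing holds as soon as this product, not the factors, is regular.
A multivalued rational map to a pair `(Y, Δ_Y)`, `dim Y = d`, with a section of `m (K_Y + Δ_Y)` gives
a form `θ` (with an `m`-th root as a coefficient).
-/

set_option autoImplicit false

open Module FF Pool.Agent.W602.GT

namespace Pool.Agent.Results.MP_bc213e_ag.SemistableWebs

section defs

variable {K : Type} [Field K] [Algebra ℂ K]

/-- `ω` is a section of `N (K_X + Δ)`, where `w` is the dimension of `X`, `X` is the set of places
of the function field `K` which belong to `X`, and `Δ` has the coefficient `δ P` at the prime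
divisor `P`: an `N`-canonical form whose pole at each prime divisor `P` in `X` has order at most
`N δ P`. -/
def IsSection (w : ℕ) (X : Set (Place ℂ K)) (δ : Place ℂ K → ℝ) (N : ℕ)
    (ω : (Fin w → Derivation ℂ K K) → K) : Prop :=
  IsPluri N ω ∧ ∀ P ∈ X, Divisorial w P → ∀ D : Fin w → Derivation ℂ K K,
    (∀ i, DerReg P (D i)) → ω D = 0 ∨ -(N * δ P) ≤ (P.ord (ω D) : ℝ)

/-- The Kodaira dimension of `(X, Δ)` is at least `κ`: for some `N > 0` there are sections of
`N (K_X + Δ)` whose quotients contain `κ` algebraically independent functions. -/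
def KodairaGe (w : ℕ) (X : Set (Place ℂ K)) (δ : Place ℂ K → ℝ) (κ : ℕ) : Prop :=
  ∃ N : ℕ, 0 < N ∧ ∃ ω : Fin (κ + 1) → (Fin w → Derivation ℂ K K) → K,
    (∀ j, IsSection w X δ N (ω j)) ∧
    ∃ D, ω 0 D ≠ 0 ∧ AlgebraicIndependent ℂ (fun i : Fin κ => ω i.succ D / ω 0 D)

variable {L : Type} [Field L] [Algebra ℂ L] [Algebra K L] [IsScalarTower ℂ K L] {d : ℕ}

/-- The value of the `d`-form `θ_1 ∧ ... ∧ θ_d`, with coefficients in `L`, on `d` vector fields. -/
noncomputable def value (θ : Derivation ℂ K K →ₗ[K] (Fin d → L))
    (D : Fin d → Derivation ℂ K K) : L :=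
  (Matrix.of fun r j => θ (D j) r).det

/-- The product of all conjugates of the `d`-form `θ`, multiplied by the function `f`, is regular on
the orbifold pair `(X, Δ)`: at each place `Q` of `L` over a prime divisor `P` of `X`, with ramification
index `e`, its value on vector fields which are regular at `P` (`d` of them for each conjugate) has
order at least `- q e δ P`, where `q` is the number of the conjugates for which they are not all
logarithmic at `P`. -/
def RegularProduct [FiniteDimensional K L] (n : ℕ) (X : Set (Place ℂ K)) (δ : Place ℂ K → ℝ)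
    (θ : Derivation ℂ K K →ₗ[K] (Fin d → L)) (f : K) : Prop :=
  ∀ P ∈ X, Divisorial n P → ∀ (Q : Place ℂ L) (e : ℕ), Over Q P e →
    ∀ D : (L ≃ₐ[K] L) → Fin d → Derivation ℂ K K, (∀ σ j, DerReg P (D σ j)) →
      algebraMap K L f * ∏ σ : L ≃ₐ[K] L, σ (value θ (D σ)) = 0 ∨
        -(e * δ P * (Nat.card {σ : L ≃ₐ[K] L // ¬ ∀ j, DerLog P (D σ j)} : ℝ)) ≤
          (Q.ord (algebraMap K L f * ∏ σ : L ≃ₐ[K] L, σ (value θ (D σ))) : ℝ)

/-- The web of the conjugates of `θ` is semistable, `n` being the dimension of `X`: for every
rational distribution `V` on `X` (a subspace over `K` of the tangent space at the generic point),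
`d * dim V ≤ n * rank (θ | V)`. -/
def Semistable (n : ℕ) (θ : Derivation ℂ K K →ₗ[K] (Fin d → L)) : Prop :=
  ∀ V : Submodule K (Derivation ℂ K K),
    d * finrank K V ≤ n * finrank L (Submodule.span L (θ '' V))

end defs

/-- **Nonvanishing for semistable webs.**  Let `(X, Δ)` be a pair of dimension `n ≥ 1` with function
field `K` and coefficients `δ P ≥ 0`, `L` a finite Galois extension of `K`, and `θ` a decomposable
`d`-form, `d ≥ 1`, with coefficients in `L`, such that `d * dim V ≤ n * rank (θ | V)` for all
subspaces `V` over `K` of the generic tangent space.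
(1) If the product of the conjugates of `θ` is regular on `(X, Δ)`, then `κ(X, Δ) ≥ 0`.
(2) If this product remains regular after multiplication with the functions `f 0, ..., f κ`, whose
quotients `f j / f 0` are algebraically independent, then `κ(X, Δ) ≥ κ`.
(3) For `d = 1` the condition on `θ` holds if the 1-form `θ` does not vanish on any nonzero vector
field on `X`. -/
theorem result {K : Type} [Field K] [Algebra ℂ K] [Algebra.EssFiniteType ℂ K] {n : ℕ}
    (hn : Algebra.trdeg ℂ K = n) (hn0 : 0 < n) {L : Type} [Field L] [Algebra ℂ L] [Algebra K L]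
    [IsScalarTower ℂ K L] [FiniteDimensional K L] [IsGalois K L] {d : ℕ} (hd : 0 < d)
    (θ : Derivation ℂ K K →ₗ[K] (Fin d → L))
    (X : Set (Place ℂ K)) (δ : Place ℂ K → ℝ) (hδ : ∀ P ∈ X, 0 ≤ δ P) :
    (Semistable n θ → RegularProduct n X δ θ 1 → KodairaGe n X δ 0) ∧
    (Semistable n θ → ∀ (κ : ℕ) (f : Fin (κ + 1) → K), f 0 ≠ 0 →
      AlgebraicIndependent ℂ (fun j : Fin κ => f j.succ / f 0) →
      (∀ j, RegularProduct n X δ θ (f j)) → KodairaGe n X δ κ) ∧
    (d = 1 → (∀ D, θ D = 0 → D = 0) → Semistable n θ) := by
  classical
  have part2 : Semistable n θ → ∀ (κ : ℕ) (f : Fin (κ + 1) → K), f 0 ≠ 0 →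
      AlgebraicIndependent ℂ (fun j : Fin κ => f j.succ / f 0) →
      (∀ j, RegularProduct n X δ θ (f j)) → KodairaGe n X δ κ :=
    fun hs κ f hf0 hf hreg =>
      Pool.Agent.Helper12.BL.web_main hn hn0 hd θ hs X δ hδ f hf0 hf hreg
  refine ⟨fun hs hreg => part2 hs 0 (fun _ => 1) one_ne_zero ?_ fun _ => hreg, part2, ?_⟩
  · rw [algebraicIndependent_empty_type_iff]
    exact (algebraMap ℂ K).injective
  · rintro rfl hinj V
    by_cases hV : V = ⊥
    · subst hV
      rw [finrank_bot, mul_zero]
      exact Nat.zero_le _
    obtain ⟨D, hD, hD0⟩ := Submodule.exists_mem_ne_zero_of_ne_bot hV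
    obtain ⟨y, hy⟩ := basis_of_trdeg hn
    obtain ⟨ev, hev⟩ : ∃ ev : Derivation ℂ K K →ₗ[K] (Fin n → K), ∀ D, ev D = fun j => D (y j) :=
      ⟨{ toFun := fun D => fun j => D (y j)
         map_add' := fun _ _ => rfl
         map_smul' := fun _ _ => rfl }, fun _ => rfl⟩
    have hevi : Function.Injective ev := by
      rw [← LinearMap.ker_eq_bot, LinearMap.ker_eq_bot']
      intro D hD
      ext f
      rw [hev] at hD
      exact Pool.Agent.W619.TW.der_zero D y hy (fun i => congrFun hD i) f
    have h1 : finrank K V ≤ n := by
      rw [← Pool.Agent.Helper12.BL.finrank_map_inj hevi]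
      refine (Submodule.finrank_le _).trans ?_
      rw [Module.finrank_fin_fun]
    have h2 : 1 ≤ finrank L (Submodule.span L (θ '' V)) := by
      rw [Nat.one_le_iff_ne_zero]
      intro h0
      have h3 := Submodule.finrank_eq_zero.1 h0
      have h4 : θ D ∈ Submodule.span L (θ '' V) := Submodule.subset_span ⟨D, hD, rfl⟩
      rw [h3, Submodule.mem_bot] at h4
      exact hD0 (hinj D h4)
    calc 1 * finrank K V ≤ n * 1 := by omega
      _ ≤ _ := Nat.mul_le_mul_left n h2

end Pool.Agent.Results.MP_bc213e_ag.SemistableWebs
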