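import Pool.Agent.Helper91.SL.Refine

/-!
# Orders of the divisor classes and the foliation with the smallest canonical divisor

Let `(X, Δ)` be a pair of dimension `n` with function field `K` and coefficients in `[0, 1]`.  For a
distribution `U ⊆ T_X` let `K_U` be its canonical divisor and `Δ_U` the part of `Δ` whose prime divisors
are not `U`-invariant.  An *order* is a total preorder `≤` of the divisors on `X` which is compatible
with addition and with division by natural numbers, such that effective divisors are `≥ 0` (hence
principal divisors are `≥ 0` and `≤ 0`).  For instance each movable class `α` gives the order for which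
`L ≤ L'` if `L · α ≤ L' · α`; but most orders are not given by real numbers, and a divisor may be
infinitely small.

**Theorem.**  (A) Nonvanishing holds for `(X, Δ)`, that is `κ (X, K_X + Δ) ≥ 0`, if and only if
`K_X + Δ ≥ 0` for each order.  (This is a formal fact, by Zorn's lemma, and only the frame for (B).)
If nonvanishing fails then for each degree `α` (an additive real function of the divisors which is
`≥ 0` on effective ones) with `α (K_X + Δ) ≤ 0` there is an order which refines `α` (`L ≤ 0` implies
`α (L) ≤ 0`) such that `K_X + Δ < 0`.

(B) For each order there is a foliation `F`, the largest distribution on which there are no tensors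
below zero: each orbifold tensor differential on `F` of degree `N ≥ 0`, of any symmetry, with values in
`a (K_F + Δ_F) + L`, where `a ≥ 0`, `N + a rk F > 0` and `L ≤ 0` is any divisor, is zero.  The
canonical divisor of `F` is the smallest one:

* `K_F + Δ_F ≤ K_U + Δ_U` for each distribution `U`, and `<` unless `F ⊆ U`;
* `F ≠ 0` if and only if `K_U + Δ_U < 0` for some distribution `U`, and then `K_F + Δ_F < 0`;
* `F` is invariant under the automorphisms of the field `K` which preserve `(X, Δ)` and the order.

*If nonvanishing fails.*  By (A) there is an order with `K_X + Δ < 0`.  By (B) there is a foliation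
`F ≠ 0` with `K_F + Δ_F ≤ K_X + Δ < 0` without tensors below zero.  So to each order which witnesses the
failure of nonvanishing there belongs a canonical foliation with all the properties that the maximal
destabilising foliation with respect to a movable class `α` with `(K_X + Δ) · α < 0` would have
(Miyaoka; Campana and Păun), although `K_X + Δ` may be pseudo-effective or nef, so that there is no
such `α`.  If `K_X + Δ` is nef (and not big) there are movable classes `α` with `(K_X + Δ) · α = 0`, for
instance `(K_X + Δ) ^ ν · H ^ (n - 1 - ν)`, `H` ample and `ν` the numerical dimension, and for each of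
them the order can be chosen such that `L · α > 0` implies `L > 0`; then no tensor on `F` has values in a
divisor `L` with `L · α < 0`, and `(K_F + Δ_F) · α ≤ (K_U + Δ_U) · α` for all `U`.  What is new is the part
of the order which `α` does not see: `K_X + Δ < 0` although `(K_X + Δ) · α = 0`.  The
vanishing holds for values in *all* divisors `L ≤ 0`, for example in `b (K_X + Δ)`, `b ≥ 0`, in
`b (K_U + Δ_U) - (effective)` for `U` with `K_U + Δ_U ≤ 0`, and in at least one of `L` and `- L` for
each divisor `L`.  Formal theories of slopes with values in ordered groups are due to Rudakov, André and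
Chen; the vanishing of tensors, the comparison with all distributions and the integrability seem to be
known only for movable classes.  The foliations of `FoliationWithoutTensors` and `EffectiveFoliation`
have no tensors with values in `b (K_X + Δ)`; they come without an order and without a comparison.
As `X` may be any set of places, the theorem covers quasi-projective varieties and, with the horizontal
prime divisors of a fibration as `X`, the nonvanishing on its generic fibre.

The proof.  (A) By Zorn's lemma: a maximal convex set of divisor classes which contains the effective
classes and `- (K_X + Δ)` but for which `K_X + Δ` is not `≥ 0` is the set of the classes `≥ 0` of an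
order.  (B) (1) *Splitting.*  A mixed tensor on `U` and `U'`, considered as a matrix, has a minor of
maximal size which does not vanish and the minors of this size are a product of a tensor on `U` with
values in `L` and a tensor on `U'` with values in `L'` such that `L + L'` is a multiple of the given
divisor; as the order is total, `L ≤ 0` or `L' ≤ 0`.  Hence the sum of two distributions without
tensors below zero has none, and there is a largest one, `F`.  (2) Replacing arguments of a tensor by
brackets one sees that `F + [F, F]` has no tensors below zero, so that `F` is a foliation.  (3) Let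
`U ⊇ F` with `K_U + Δ_U < K_F + Δ_F` be of minimal rank.  By (1) there is a tensor `≠ 0` below zero on
`U` which vanishes if one of its arguments is in `F`.  If there is no invariant of `SL (U)` on the
collection of these tensors then it is destabilised by an optimal flag (Hilbert, Mumford, Kempf),
whose members contain `F`, and the leading parts of the tensors, twisted by a character, are semistable
for the Levi subgroup (Ramanan and Ramanathan), which gives a section of a combination of the canonical
divisors of the members and of a divisor `≤ 0`; as the divisors of the proper members are `≥ K_F + Δ_F`,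
so is the one of `U`, a contradiction.  (4) For arbitrary `U` one applies (3) to `G = U + F`; the
determinant of `G / U` is a tensor on `F` with values in `(K_U + Δ_U) - (K_G + Δ_G)`, which is therefore
`> 0` if `G ≠ U`.
-/

set_option autoImplicit false

open Module FF Pool.Agent.W602.GT Pool.Agent.Helper91.HM.Tw Pool.Agent.Helper91.Fol2
  Pool.Agent.Helper91.Ord

namespace Pool.Agent.Results.MP_bc213e_ag.SmallestCanonicalDivisor

/-- **Orders of the divisor classes and the foliation with the smallest canonical divisor.**  Let
`(X, Δ)` be a pair of dimension `n` with function field `K` and coefficients `0 ≤ δ P ≤ 1`.  Each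
distribution `U` has a canonical divisor `κ`, that is, a divisor of `K_U + Δ_U`.  Nonvanishing holds for
`(X, Δ)` if and only if `K_X + Δ ≥ 0` for each order of the divisor classes of `X`; if it fails then for
each degree `α` with `α (K_X + Δ) ≤ 0` there is an order with `K_X + Δ < 0` which refines `α`.  For each
order there is a distribution `F`, closed under Lie brackets, such that: there are no tensors below zero
on `F`, and `F` contains each distribution with this property; `K_F + Δ_F ≤ K_U + Δ_U` for each
distribution `U`, with `<` unless `F ⊆ U`; `K_F + Δ_F < 0` if `F ≠ 0`; `F ≠ 0` if `K_U + Δ_U < 0` for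
some distribution `U`; `F` is invariant under each automorphism of the field `K` which preserves
`(X, Δ)` and the order. -/
theorem result {K : Type} [Field K] [Algebra ℂ K] [Algebra.EssFiniteType ℂ K] {n : ℕ}
    (hn : Algebra.trdeg ℂ K = n) (X : Set (Place ℂ K)) (δ : Place ℂ K → ℝ)
    (hδ : ∀ P ∈ X, 0 ≤ δ P ∧ δ P ≤ 1) :
    (∀ U : Submodule K (Derivation ℂ K K), ∃ κ, IsCanonicalOn n X δ U κ) ∧
    (KodairaGe n X δ 0 ↔ ∀ (NonPos : Divisor K → Prop) (κ : Divisor K),
      IsOrder n X NonPos → IsCanonicalOn n X δ ⊤ κ → NonPos (-κ)) ∧
    (¬ KodairaGe n X δ 0 → ∀ (α : (Place ℂ K →₀ ℝ) → ℝ) (κ : Place ℂ K →₀ ℝ), IsDegree n X α →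
      IsCanonicalOn n X δ ⊤ κ → α κ ≤ 0 → ∃ NonPos : Divisor K → Prop, IsOrder n X NonPos ∧
        ¬ NonPos (-κ) ∧ ∀ L : Place ℂ K →₀ ℝ, NonPos L → α L ≤ 0) ∧
    ∀ NonPos : Divisor K → Prop, IsOrder n X NonPos → ∃ F : Submodule K (Derivation ℂ K K),
      Involutive F ∧ NoTensorsBelow n X δ NonPos F ∧
      (∀ U, NoTensorsBelow n X δ NonPos U → U ≤ F) ∧
      (∀ U κF κU, IsCanonicalOn n X δ F κF → IsCanonicalOn n X δ U κU →
        NonPos (κF - κU) ∧ (¬ F ≤ U → ¬ NonPos (κU - κF))) ∧
      (F ≠ ⊥ → ∀ κF, IsCanonicalOn n X δ F κF → ¬ NonPos (-κF)) ∧
      (∀ U κU, IsCanonicalOn n X δ U κU → ¬ NonPos (-κU) → F ≠ ⊥) ∧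
      (∀ φ : K ≃+* K, Preserves X δ φ → PreservesOrder NonPos φ → ∀ D ∈ F,
        ∀ D' : Derivation ℂ K K, (∀ f, D' (φ f) = φ (D f)) → D' ∈ F) :=
  have h := Pool.Agent.Helper91.SL.main3 hn X δ hδ
  ⟨h.1, h.2.1, fun hK _ _ hα hκ hακ =>
    Pool.Agent.Helper91.SL.refine_order hn (fun P hP => (hδ P hP).1) hK hα hκ hακ, h.2.2⟩

end Pool.Agent.Results.MP_bc213e_ag.SmallestCanonicalDivisor
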